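import Pool.Agent.Q86.AbgMain

/-!
# The homology of the Allison-Benkart-Gao Lie algebra of a free alternative algebra
(`MP_894cc0_al`, Q1: no)

If no `H_m(ABG(Alt(V)), k)`, `2 ≤ m ≤ 9`, has a trivial or an adjoint component, then the
complexes of equivariant maps from the trivial and from the adjoint `sl_3`-module to the degree `n`
part of the Chevalley-Eilenberg complex of `ABG(Alt(V))` are exact for `2 ≤ n ≤ 9`. So their Euler
characteristics vanish, and this determines the dimensions of the graded pieces of `Alt(V)` and of
`B(Alt(V))` recursively. For `dim V = 4` the recursion gives `dim Alt(V)_9 = 261176`, but `Alt(V)_9`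
maps onto the space of associative words of length `9`, of dimension `4 ^ 9 = 262144`.
-/

set_option autoImplicit false

namespace Pool.Agent.Results.MP_894cc0_al.HasComponent

open Q86.Abg

/-- **Theorem.** Let `k` be a field of characteristic zero, let `A` be the free alternative algebra
on four generators, let `L = ABG(A)` be its Allison-Benkart-Gao Lie algebra, with `X ⊗ p` written
`t X p` and `p ∧ q` written `w p q`, and let `sl_3` act on `L` by the derivations `θ X`, which act on
the factor `sl_3` of `sl_3 ⊗ A` only. For some `m` with `2 ≤ m ≤ 9` the `sl_3`-module `H_m(L, k)`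
has a direct summand isomorphic to the trivial module `k` or to the adjoint module. -/
theorem result (k : Type*) [Field k] [CharZero k] :
    ∃ (A : Type _) (_ : NonUnitalNonAssocRing A) (_ : Module k A)
      (_ : IsScalarTower k A A) (_ : SMulCommClass k A A) (x : Fin 4 → A)
      (L : Type _) (_ : LieRing L) (_ : LieAlgebra k L) (t : S k →ₗ[k] A →ₗ[k] L)
      (w : A →ₗ[k] A →ₗ[k] L) (θ : S k → L →ₗ[k] L) (m : ℕ),
      IsFreeAlternative k A x ∧ IsABG k A L t w ∧
      (∀ X Y p, θ X (t Y p) = t ⁅X, Y⁆ p) ∧ (∀ X p q, θ X (w p q) = 0) ∧ 2 ≤ m ∧ m ≤ 9 ∧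
      (IsSummand k L θ m k (fun _ => 0) ∨ IsSummand k L θ m (S k) (fun X => lieS X)) :=
  main k

end Pool.Agent.Results.MP_894cc0_al.HasComponent
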